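import Mathlib
import Pool.Agent.K3h92.Hz.Stm

/-! Bricks SW and ONE: number of transpositions, exactly one diameter. -/

set_option autoImplicit false

namespace Pool.Agent.K3h35.Hz

open Equiv Pool.Agent.K3h92.Hz

/-! ### The number of transpositions -/

open Classical in
/-- extension by zero -/
noncomputable def E0 (S : Finset ℤ) : (S → ℚ) →ₗ[ℚ] (ℤ → ℚ) where
  toFun v x := if h : x ∈ S then v ⟨x, h⟩ else 0
  map_add' v w := by
    ext x
    simp only [Pi.add_apply]
    split_ifs <;> simp
  map_smul' c v := by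
    ext x
    simp only [Pi.smul_apply, RingHom.id_apply]
    split_ifs <;> simp

lemma E0_mem {S : Finset ℤ} (v : S → ℚ) {x : ℤ} (h : x ∈ S) : E0 S v x = v ⟨x, h⟩ := by
  unfold E0
  simp [h]

lemma inv_prod {w : ℤ → ℚ} : ∀ l : List (Perm ℤ), (∀ t ∈ l, ∀ x, w (t x) = w x) → ∀ x, w (l.prod x) = w x
  | [], _, x => by simp
  | t :: l, h, x => by
    rw [List.prod_cons, Perm.mul_apply, h t (by simp), inv_prod l (fun s hs => h s (by simp [hs]))]

lemma inv_pow {w : ℤ → ℚ} {c : Perm ℤ} (h : ∀ x, w (c x) = w x) (k : ℕ) : ∀ x, w ((c ^ k) x) = w x := by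
  induction k with
  | zero => intro x; simp
  | succ k ih => intro x; rw [pow_succ, Perm.mul_apply, ih, h]

lemma cox_cs (n : ℕ) : IsCox n (cs n) := ⟨List.range n, List.Perm.refl _, rfl⟩

theorem sw (ht : StmTrans) : StmSw := by
  classical
  intro n l hn hl hprod
  set S : Finset ℤ := (Finset.Icc (-(n : ℤ)) n).erase 0 with hS
  have hScard : S.card = 2 * n := by
    rw [hS, Finset.card_erase_of_mem (by rw [Finset.mem_Icc]; omega), Int.card_Icc]
    omega
  have hmem : ∀ x : ℤ, x ∈ S → 1 ≤ |x| ∧ |x| ≤ n := by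
    intro x hx
    rw [hS, Finset.mem_erase, Finset.mem_Icc] at hx
    exact ⟨Int.one_le_abs hx.1, abs_le.2 hx.2⟩
  have htr := (ht n (cs n) (cox_cs n)).2
  have hl' : ∀ i : Fin l.length, ∃ a b : ℤ, l.get i = swap a b := fun i => hl _ (List.get_mem l i)
  choose a b hab using hl'
  set T : (S → ℚ) →ₗ[ℚ] (Fin l.length → ℚ) :=
    LinearMap.pi (fun i => ((LinearMap.proj (a i) : (ℤ → ℚ) →ₗ[ℚ] ℚ) - LinearMap.proj (b i)) ∘ₗ E0 S) with hT
  have hTapp : ∀ v i, T v i = E0 S v (a i) - E0 S v (b i) := by
    intro v i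
    rw [hT]
    rfl
  have hker : LinearMap.ker T ≤ Submodule.span ℚ {(fun _ => 1 : S → ℚ)} := by
    intro v hv
    rw [LinearMap.mem_ker] at hv
    have h1 : ∀ i, E0 S v (a i) = E0 S v (b i) := by
      intro i
      have := congrFun hv i
      rw [hTapp] at this
      simp only [Pi.zero_apply] at this
      linarith
    have h2 : ∀ t ∈ l, ∀ x, E0 S v (t x) = E0 S v x := by
      intro t ht' x
      obtain ⟨i, rfl⟩ := List.get_of_mem ht'
      rw [hab i, swap_apply_def]
      split_ifs with c1 c2
      · rw [c1, h1]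
      · rw [c2, h1]
      · rfl
    have h3 := inv_prod l h2
    rw [hprod] at h3
    have h4 : ∀ x ∈ S, ∀ y ∈ S, E0 S v x = E0 S v y := by
      intro x hx y hy
      obtain ⟨k, hk⟩ := htr x y (hmem x hx).1 (hmem x hx).2 (hmem y hy).1 (hmem y hy).2
      rw [← hk, inv_pow h3]
    have h1S : (1 : ℤ) ∈ S := by
      rw [hS, Finset.mem_erase, Finset.mem_Icc]
      omega
    rw [Submodule.mem_span_singleton]
    refine ⟨v ⟨1, h1S⟩, ?_⟩
    ext ⟨x, hx⟩
    simp only [Pi.smul_apply, smul_eq_mul, mul_one]
    rw [← E0_mem v h1S, ← E0_mem v hx]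
    exact h4 _ h1S _ hx
  have k1 : Module.finrank ℚ (LinearMap.ker T) ≤ 1 := by
    have h1 := Submodule.finrank_mono hker
    have h2 := finrank_span_le_card (R := ℚ) ({(fun _ => 1 : S → ℚ)} : Set (S → ℚ))
    simp only [Set.toFinset_singleton, Finset.card_singleton] at h2
    exact h1.trans h2
  have k2 : Module.finrank ℚ (LinearMap.range T) ≤ l.length := by
    have := Submodule.finrank_le (LinearMap.range T)
    simpa using this
  have k3 := LinearMap.finrank_range_add_finrank_ker T
  have k4 : Module.finrank ℚ (S → ℚ) = 2 * n := by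
    rw [Module.finrank_fintype_fun_eq_card, Fintype.card_coe, hScard]
  omega

/-! ### Parity -/

/-- proper transpositions -/
def Sws (L : List (Perm ℤ)) : Prop := ∀ s ∈ L, ∃ a b : ℤ, a ≠ b ∧ s = swap a b

lemma lift (L : List (Perm ℤ)) (hL : Sws L) : ∃ N0 : ℤ, ∀ N : ℤ, N0 ≤ N →
    ∃ L' : List (Perm {x : ℤ // |x| ≤ N}), (∀ s ∈ L', s.IsSwap) ∧ L'.length = L.length ∧
      Perm.ofSubtype L'.prod = L.prod := by
  induction L with
  | nil => exact ⟨0, fun N _ => ⟨[], by simp, rfl, by simp⟩⟩
  | cons s L ih =>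
    obtain ⟨N0, h0⟩ := ih (fun t ht => hL t (by simp [ht]))
    obtain ⟨a, b, hab, rfl⟩ := hL s (by simp)
    refine ⟨max N0 (max |a| |b|), fun N hN => ?_⟩
    obtain ⟨L', h1, h2, h3⟩ := h0 N ((le_max_left _ _).trans hN)
    have ha : |a| ≤ N := (le_max_left _ _).trans ((le_max_right _ _).trans hN)
    have hb : |b| ≤ N := (le_max_right _ _).trans ((le_max_right _ _).trans hN)
    refine ⟨swap ⟨a, ha⟩ ⟨b, hb⟩ :: L', ?_, by simp [h2], ?_⟩
    · intro t ht
      rw [List.mem_cons] at ht
      rcases ht with rfl | ht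
      · exact ⟨⟨a, ha⟩, ⟨b, hb⟩, by simpa using hab, rfl⟩
      · exact h1 t ht
    · rw [List.prod_cons, List.prod_cons, map_mul, h3, Perm.ofSubtype_swap_eq]

lemma parity (L M : List (Perm ℤ)) (hL : Sws L) (hM : Sws M) (h : L.prod = M.prod) :
    L.length % 2 = M.length % 2 := by
  classical
  obtain ⟨N1, h1⟩ := lift L hL
  obtain ⟨N2, h2⟩ := lift M hM
  obtain ⟨L', a1, a2, a3⟩ := h1 (max N1 N2) (le_max_left _ _)
  obtain ⟨M', b1, b2, b3⟩ := h2 (max N1 N2) (le_max_right _ _)
  have e : L'.prod = M'.prod := Perm.ofSubtype_injective (by rw [a3, b3, h])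
  haveI : Fintype {x : ℤ // |x| ≤ max N1 N2} := by
    have : Finite {x : ℤ // |x| ≤ max N1 N2} := by
      have hfin : Set.Finite {x : ℤ | |x| ≤ max N1 N2} := by
        apply Set.Finite.subset (Set.finite_Icc (-(max N1 N2)) (max N1 N2))
        intro x hx
        exact abs_le.1 hx
      exact hfin.to_subtype
    exact Fintype.ofFinite _
  have s1 := Perm.sign_prod_list_swap a1
  have s2 := Perm.sign_prod_list_swap b1
  rw [e, s2, a2, b2] at s1
  by_contra hne
  rcases Nat.even_or_odd L.length with hl | hl <;> rcases Nat.even_or_odd M.length with hm | hm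
  · rw [Nat.even_iff] at hl hm; omega
  · rw [hl.neg_one_pow, hm.neg_one_pow] at s1
    exact absurd s1 (by decide)
  · rw [hl.neg_one_pow, hm.neg_one_pow] at s1
    exact absurd s1 (by decide)
  · rw [Nat.odd_iff] at hl hm; omega

/-! ### Letters -/

open Classical in
lemma letters (l : List (Perm ℤ)) (hl : ∀ t ∈ l, Df t ∨ Nd t) : ∃ L : List (Perm ℤ), Sws L ∧ L.prod = l.prod ∧
    L.length + l.countP (fun t => decide (Df t)) = 2 * l.length := by
  induction l with
  | nil => exact ⟨[], by simp [Sws], rfl, rfl⟩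
  | cons t l ih =>
    obtain ⟨L, h1, h2, h3⟩ := ih (fun s hs => hl s (by simp [hs]))
    by_cases hd : Df t
    · obtain ⟨a, ha, hta⟩ := hd
      refine ⟨t :: L, ?_, by rw [List.prod_cons, List.prod_cons, h2], ?_⟩
      · intro s hs
        rw [List.mem_cons] at hs
        rcases hs with rfl | hs
        · exact ⟨a, -a, by omega, hta⟩
        · exact h1 s hs
      · rw [List.countP_cons_of_pos (by simpa using ⟨a, ha, hta⟩), List.length_cons, List.length_cons]
        omega
    · have hn := (hl t (by simp)).resolve_left hd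
      obtain ⟨a, b, ha, hb, hab, hab', hta⟩ := hn
      refine ⟨swap a b :: swap (-a) (-b) :: L, ?_, ?_, ?_⟩
      · intro s hs
        rw [List.mem_cons, List.mem_cons] at hs
        rcases hs with rfl | rfl | hs
        · exact ⟨a, b, hab, rfl⟩
        · exact ⟨-a, -b, by omega, rfl⟩
        · exact h1 s hs
      · rw [List.prod_cons, List.prod_cons, List.prod_cons, h2, hta]
        unfold nd
        rw [mul_assoc]
      · rw [List.countP_cons_of_neg (by simpa using hd), List.length_cons, List.length_cons, List.length_cons]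
        omega

lemma cs_swaps : ∀ n : ℕ, ∃ M : List (Perm ℤ), Sws M ∧ M.prod = cs (n + 1) ∧ M.length = 2 * n + 1
  | 0 => by
    refine ⟨[swap 1 (-1)], ?_, ?_, rfl⟩
    · intro s hs
      rw [List.mem_singleton] at hs
      exact ⟨1, -1, by norm_num, hs⟩
    · simp [cs, sg, df]
  | n + 1 => by
    obtain ⟨M, h1, h2, h3⟩ := cs_swaps n
    refine ⟨M ++ [swap ((n + 1 : ℕ) : ℤ) ((n + 1 : ℕ) + 1), swap (-((n + 1 : ℕ) : ℤ)) (-(((n + 1 : ℕ) : ℤ) + 1))], ?_, ?_, ?_⟩
    · intro s hs
      rw [List.mem_append] at hs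
      rcases hs with hs | hs
      · exact h1 s hs
      · simp only [List.mem_cons, List.not_mem_nil, or_false] at hs
        rcases hs with rfl | rfl
        · exact ⟨_, _, by omega, rfl⟩
        · exact ⟨_, _, by omega, rfl⟩
    · rw [List.prod_append, h2]
      have e : cs (n + 1 + 1) = cs (n + 1) * sg (n + 1) := by
        unfold cs
        rw [List.range_succ (n := n + 1), List.map_append, List.prod_append]
        simp
      rw [e]
      unfold sg nd
      rw [if_neg (by omega)]
      simp
    · rw [List.length_append, h3]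
      simp
      omega

lemma nd_sq {x y : ℤ} (hx : x ≠ 0) (hy : y ≠ 0) (h1 : x ≠ y) (h2 : x ≠ -y) : nd x y * nd x y = 1 := by
  ext z
  simp only [nd, Perm.mul_apply, Perm.one_apply, swap_apply_def]
  split_ifs <;> omega

lemma nd_nd {x y : ℤ} (hx : x ≠ 0) (hy : y ≠ 0) (h1 : x ≠ y) (h2 : x ≠ -y) : nd x y * nd x (-y) = df x * df y := by
  ext z
  simp only [nd, df, Perm.mul_apply, swap_apply_def]
  split_ifs <;> omega

lemma mem_of_get? {α : Type} {l : List α} {i : ℕ} {t : α} (h : l[i]? = some t) : t ∈ l := List.mem_of_getElem? h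

theorem one (hs : StmSw) : StmOne := by
  classical
  intro n l hn hl hlen hprod
  obtain ⟨L, a1, a2, a3⟩ := letters l hl
  have hL : ∀ t ∈ L, ∃ a b : ℤ, t = swap a b := fun t ht => by
    obtain ⟨a, b, _, h⟩ := a1 t ht
    exact ⟨a, b, h⟩
  have h1 := hs n L hn hL (by rw [a2, hprod])
  obtain ⟨M, b1, b2, b3⟩ := cs_swaps (n - 1)
  rw [Nat.sub_add_cancel hn] at b2
  have h2 := parity L M a1 b1 (by rw [a2, b2, hprod])
  have hcount : l.countP (fun t => decide (Df t)) = 1 := by omega
  refine ⟨?_, ?_⟩
  · have hex : ∃ t ∈ l, Df t := by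
      by_contra hcon
      push Not at hcon
      have : l.countP (fun t => decide (Df t)) = 0 := by
        rw [List.countP_eq_zero]
        intro t ht
        simpa using hcon t ht
      omega
    obtain ⟨t, ht, hd⟩ := hex
    obtain ⟨u, v, rfl⟩ := List.append_of_mem ht
    rw [List.countP_append, List.countP_cons_of_pos (by simpa using hd)] at hcount
    have hu : u.countP (fun t => decide (Df t)) = 0 := by omega
    have hv : v.countP (fun t => decide (Df t)) = 0 := by omega
    rw [List.countP_eq_zero] at hu hv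
    refine ⟨u.length, by rw [← hlen, List.length_append, List.length_cons]; omega, ?_⟩
    intro i s his
    constructor
    · intro hds
      by_contra hne
      rcases Nat.lt_or_ge i u.length with hi | hi
      · rw [List.getElem?_append_left hi] at his
        have := hu s (mem_of_get? his)
        simp only [decide_eq_true_eq] at this
        exact this hds
      · rw [List.getElem?_append_right hi] at his
        obtain ⟨m, hm⟩ : ∃ m, i - u.length = m + 1 := ⟨i - u.length - 1, by omega⟩
        rw [hm, List.getElem?_cons_succ] at his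
        have := hv s (mem_of_get? his)
        simp only [decide_eq_true_eq] at this
        exact this hds
    · intro hi
      subst hi
      rw [List.getElem?_append_right le_rfl, Nat.sub_self, List.getElem?_cons_zero, Option.some.injEq] at his
      rw [← his]
      exact hd
  · intro a b x y hx hy hxy hxy'
    have hlet : ∀ u v : Perm ℤ, l = a ++ u :: v :: b → ∃ L' : List (Perm ℤ), ∃ L'' : List (Perm ℤ), Sws L' ∧ Sws L'' ∧
        L'.prod = a.prod ∧ L''.prod = b.prod ∧ L'.length + L''.length ≤ 2 * (n - 2) := by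
      intro u v h
      obtain ⟨L', c1, c2, c3⟩ := letters a (fun t ht => hl t (by rw [h]; simp [ht]))
      obtain ⟨L'', d1, d2, d3⟩ := letters b (fun t ht => hl t (by rw [h]; simp [ht]))
      refine ⟨L', L'', c1, d1, c2, d2, ?_⟩
      have : n = a.length + (b.length + 2) := by
        rw [← hlen, h, List.length_append, List.length_cons, List.length_cons]
      omega
    have hn2 : ∀ u v : Perm ℤ, l = a ++ u :: v :: b → 2 ≤ n := by
      intro u v h
      rw [← hlen, h, List.length_append, List.length_cons, List.length_cons]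
      omega
    constructor
    · intro h
      obtain ⟨L', L'', c1, d1, c2, d2, hle⟩ := hlet _ _ h
      have h2 := hn2 _ _ h
      have hp : (L' ++ L'').prod = cs n := by
        rw [List.prod_append, c2, d2, ← hprod, h, List.prod_append, List.prod_cons, List.prod_cons,
          ← mul_assoc (nd x y), nd_sq hx hy hxy hxy', one_mul]
      have := hs n (L' ++ L'') hn (fun t ht => by
        rw [List.mem_append] at ht
        rcases ht with ht | ht
        · obtain ⟨a, b, _, h⟩ := c1 t ht
          exact ⟨a, b, h⟩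
        · obtain ⟨a, b, _, h⟩ := d1 t ht
          exact ⟨a, b, h⟩) hp
      rw [List.length_append] at this
      omega
    · intro h
      obtain ⟨L', L'', c1, d1, c2, d2, hle⟩ := hlet _ _ h
      have h2 := hn2 _ _ h
      have hp : (L' ++ (df x :: df y :: L'')).prod = cs n := by
        rw [List.prod_append, List.prod_cons, List.prod_cons, c2, d2, ← hprod, h, List.prod_append, List.prod_cons,
          List.prod_cons, ← mul_assoc (nd x y), nd_nd hx hy hxy hxy', mul_assoc (df x)]
      have := hs n (L' ++ (df x :: df y :: L'')) hn (fun t ht => by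
        rw [List.mem_append, List.mem_cons, List.mem_cons] at ht
        rcases ht with ht | rfl | rfl | ht
        · obtain ⟨a, b, _, h⟩ := c1 t ht
          exact ⟨a, b, h⟩
        · exact ⟨x, -x, rfl⟩
        · exact ⟨y, -y, rfl⟩
        · obtain ⟨a, b, _, h⟩ := d1 t ht
          exact ⟨a, b, h⟩) hp
      rw [List.length_append, List.length_cons, List.length_cons] at this
      omega

end Pool.Agent.K3h35.Hz
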